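import Pool.Agent.Helper41.KL.Fin
import Pool.Agent.Helper13.S8.d2.Tab

set_option autoImplicit false
set_option maxRecDepth 100000

/-!
Kernel check of the classes (part 1).
-/

namespace S8.d2

open KL KC

theorem e8 : ckC FI QT IM 0xe800cf00aa0097006c001e001e001e001e0053002f001f0000 F1 DM KM ND
    355 10000 418541568 400658432 140737488355328 80 10 = true := by decide +kernel

theorem e9 : ckC FI QT IM 0xe800cf00aa0097006c001e001e001e001e0053002f001f0000 F1 DM KM ND
    355 10000 418541568 400658432 140737488355328 90 10 = true := by decide +kernel

theorem e10 : ckC FI QT IM 0xe800cf00aa0097006c001e001e001e001e0053002f001f0000 F1 DM KM ND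
    355 10000 418541568 400658432 140737488355328 100 10 = true := by decide +kernel

theorem e11 : ckC FI QT IM 0xe800cf00aa0097006c001e001e001e001e0053002f001f0000 F1 DM KM ND
    355 10000 418541568 400658432 140737488355328 110 10 = true := by decide +kernel

theorem e12 : ckC FI QT IM 0xe800cf00aa0097006c001e001e001e001e0053002f001f0000 F1 DM KM ND
    355 10000 418541568 400658432 140737488355328 120 10 = true := by decide +kernel

theorem e13 : ckC FI QT IM 0xe800cf00aa0097006c001e001e001e001e0053002f001f0000 F1 DM KM ND
    355 10000 418541568 400658432 140737488355328 130 10 = true := by decide +kernel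

theorem e14 : ckC FI QT IM 0xe800cf00aa0097006c001e001e001e001e0053002f001f0000 F1 DM KM ND
    355 10000 418541568 400658432 140737488355328 140 10 = true := by decide +kernel

theorem e15 : ckC FI QT IM 0xe800cf00aa0097006c001e001e001e001e0053002f001f0000 F1 DM KM ND
    355 10000 418541568 400658432 140737488355328 150 10 = true := by decide +kernel

end S8.d2
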